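import Pool.Agent.W838.DC.Stm3
import Pool.Agent.W838.DC.Basic

/-! Project DC (helper838), part OCT: two consecutive squares force an edge. -/

set_option autoImplicit false

namespace Pool.Agent.W639.DC

open Pool.Agent.W838.DC Pool.Agent.W838.DC.Sys

variable {V X : Type*} [AddCommGroup V] (σ : Sys V X)

/-- reflection of `a` in `p` -/
def sp (p a : V) : V := a - σ.ip a p • p

theorem sp_neg (p a : V) : sp σ p (-a) = -sp σ p a := by
  unfold sp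
  rw [σ.ip_neg, neg_zsmul]
  abel

theorem sp_sp {p : V} (hp : p ∈ σ.Φ) (a : V) : sp σ p (sp σ p a) = a := by
  unfold sp
  rw [σ.ip_sub, σ.ip_zsmul, σ.ip_self p hp]
  have : (σ.ip a p - σ.ip a p * 2) • p = - (σ.ip a p • p) := by
    rw [← neg_zsmul]; congr 1; ring
  rw [this]; abel

/-- `b` is in the orbit of `a` under `±1, ±s_p` -/
def Tw (p a b : V) : Prop := b = a ∨ b = -a ∨ b = sp σ p a ∨ b = -sp σ p a

theorem Tw.symm {p a b : V} (hp : p ∈ σ.Φ) (h : Tw σ p a b) : Tw σ p b a := by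
  rcases h with rfl | rfl | rfl | rfl
  · exact Or.inl rfl
  · exact Or.inr (Or.inl (neg_neg a).symm)
  · exact Or.inr (Or.inr (Or.inl (sp_sp σ hp a).symm))
  · refine Or.inr (Or.inr (Or.inr ?_))
    rw [sp_neg, sp_sp σ hp, neg_neg]

theorem Tw.trans {p a b c : V} (hp : p ∈ σ.Φ) (h : Tw σ p a b) (h' : Tw σ p b c) : Tw σ p a c := by
  rcases h with rfl | rfl | rfl | rfl
  · exact h'
  · rcases h' with rfl | rfl | rfl | rfl
    · exact Or.inr (Or.inl rfl)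
    · exact Or.inl (neg_neg a)
    · exact Or.inr (Or.inr (Or.inr (sp_neg σ p a)))
    · refine Or.inr (Or.inr (Or.inl ?_))
      rw [sp_neg, neg_neg]
  · rcases h' with rfl | rfl | rfl | rfl
    · exact Or.inr (Or.inr (Or.inl rfl))
    · exact Or.inr (Or.inr (Or.inr rfl))
    · exact Or.inl (sp_sp σ hp a)
    · refine Or.inr (Or.inl ?_)
      rw [sp_sp σ hp]
  · rcases h' with rfl | rfl | rfl | rfl
    · exact Or.inr (Or.inr (Or.inr rfl))
    · exact Or.inr (Or.inr (Or.inl (neg_neg _)))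
    · refine Or.inr (Or.inl ?_)
      rw [sp_neg, sp_sp σ hp]
    · refine Or.inl ?_
      rw [sp_neg, sp_sp σ hp, neg_neg]

theorem tw_of_inpl {q p c : V} (h : InPl σ q p c) (h1 : c ≠ p) (h2 : c ≠ -p) : Tw σ p q c := by
  rcases h.2 with h | h | h | h | ⟨h3, h | h⟩ | ⟨h3, h | h⟩
  · exact Or.inl h
  · exact Or.inr (Or.inl h)
  · exact absurd h h1
  · exact absurd h h2
  · refine Or.inr (Or.inr (Or.inl ?_))
    rw [h]; unfold sp
    rw [h3, neg_one_zsmul, sub_neg_eq_add]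
  · refine Or.inr (Or.inr (Or.inr ?_))
    rw [h]; unfold sp
    rw [h3, neg_one_zsmul, sub_neg_eq_add]
  · refine Or.inr (Or.inr (Or.inl ?_))
    rw [h]; unfold sp
    rw [h3, one_zsmul]
  · refine Or.inr (Or.inr (Or.inr ?_))
    rw [h]; unfold sp
    rw [h3, one_zsmul]

theorem three {d p a : V} (hp : p ∈ σ.Φ) (ha : a ∈ σ.Φ) (h : Tw σ p a d) (x : X) :
    ∃ c ∈ σ.Φ, σ.r d (σ.r p (σ.r a x)) = σ.r c x := by
  have h1 : σ.r a (σ.r p (σ.r a x)) = σ.r (p - σ.ip p a • a) x := by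
    rw [σ.r_conj ha hp, σ.r_r ha]
  have h2 : σ.r (sp σ p a) (σ.r p (σ.r a x)) = σ.r p x := by
    rw [σ.r_conj hp ha]
    exact σ.r_r (σ.refl_mem p hp a ha) _
  rcases h with rfl | rfl | rfl | rfl
  · exact ⟨_, σ.refl_mem _ ha p hp, h1⟩
  · exact ⟨_, σ.refl_mem _ ha p hp, by rw [σ.r_neg ha]; exact h1⟩
  · exact ⟨p, hp, h2⟩
  · have h3 : sp σ p a ∈ σ.Φ := σ.refl_mem p hp a ha
    exact ⟨p, hp, by rw [σ.r_neg h3]; exact h2⟩

theorem oct (h : S_4C σ) : S_OCT σ := by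
  intro Y y y' z z' t hyy hzz ⟨a, ha, h1⟩ ⟨a', ha', h2⟩ ⟨p, hp, h3⟩ ⟨p', hp', h4⟩ ⟨q, hq, h5⟩
    ⟨q', hq', h6⟩ ⟨d, hd, h7⟩ ⟨d', hd', h8⟩
  have e1 : σ.r a y = Y := by rw [h1, σ.r_r ha]
  have e5 : σ.r q z = y' := by rw [h5, σ.r_r hq]
  have e6 : σ.r q' z' = y' := by rw [h6, σ.r_r hq']
  have f1 : σ.r q (σ.r p y) = y' := by rw [← h3, e5]
  have f2 : σ.r q' (σ.r p' y) = y' := by rw [← h4, e6]
  have f3 : σ.r a' (σ.r a y) = y' := by rw [e1, ← h2]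
  have hqp : q ≠ p := by
    rintro rfl
    rw [σ.r_r hp] at f1
    exact hyy f1
  have hqp' : q ≠ -p := by
    rintro rfl
    rw [σ.r_neg hp, σ.r_r hp] at f1
    exact hyy f1
  have hpp : p' ≠ p := by
    rintro rfl
    exact hzz (h3.trans h4.symm)
  have hpp' : p' ≠ -p := by
    rintro rfl
    rw [σ.r_neg hp] at h4
    exact hzz (h3.trans h4.symm)
  by_cases hdp : d = p
  · exact ⟨a, ha, by rw [h7, hdp, h3, σ.r_r hp, h1]⟩
  by_cases hdp' : d = -p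
  · exact ⟨a, ha, by rw [h7, hdp', h3, σ.r_neg hp, σ.r_r hp, h1]⟩
  have g1 := h q hq p hp q' hq' p' hp' hqp hqp' y (f1.trans f2.symm)
  have g2 := h q hq p hp a' ha' a ha hqp hqp' y (f1.trans f3.symm)
  have g3 := h d hd p hp d' hd' p' hp' hdp hdp' y (by rw [← h3, ← h4, ← h7, ← h8])
  by_cases hap : a = p
  · exact ⟨d, hd, by rw [h7, h3, h1, hap, σ.r_r hp]⟩
  by_cases hap' : a = -p
  · exact ⟨d, hd, by rw [h7, h3, h1, hap', σ.r_neg hp, σ.r_r hp]⟩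
  have k1 := tw_of_inpl σ g1.2 hpp hpp'
  have k2 := tw_of_inpl σ g2.2 hap hap'
  have k3 := tw_of_inpl σ g3.2 hpp hpp'
  have k4 : Tw σ p a d := ((k2.symm σ hp).trans σ hp k1).trans σ hp (k3.symm σ hp)
  obtain ⟨c, hc, h9⟩ := three σ hp ha k4 Y
  exact ⟨c, hc, by rw [h7, h3, h1]; exact h9⟩

end Pool.Agent.W639.DC
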